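import Pool.Agent.Y113.MT.HStm

/-!
# Project MTH, job DES: complex solutions of rational linear systems
-/

set_option autoImplicit false
set_option linter.all false

open Matrix

namespace Pool.Agent.Y261.MT

theorem des : Pool.Agent.Y113.MT.S_DES := by
  intro ι κ _ l x hx
  classical
  set W : Submodule ℚ ℂ := Submodule.span ℚ (Set.range x) with hW
  haveI : FiniteDimensional ℚ W := FiniteDimensional.span_of_finite ℚ (Set.finite_range x)
  set b := Module.finBasis ℚ W with hb
  have hxW : ∀ i, x i ∈ W := fun i => Submodule.subset_span ⟨i, rfl⟩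
  set z : Fin (Module.finrank ℚ W) → ι → ℚ := fun k i => b.repr ⟨x i, hxW i⟩ k with hz
  have hrep : ∀ i, ∑ k, z k i • b k = (⟨x i, hxW i⟩ : W) := fun i => b.sum_repr _
  have hrep' : ∀ i, x i = ∑ k, (z k i : ℂ) * (b k : ℂ) := by
    intro i
    have h1 := congrArg (Subtype.val : W → ℂ) (hrep i)
    rw [Submodule.coe_sum] at h1
    refine h1.symm.trans ?_
    refine Finset.sum_congr rfl fun k _ => ?_
    rw [Submodule.coe_smul, Rat.smul_def]
  have hz0 : ∀ k' k, ∑ i, l k' i * z k i = 0 := by
    intro k'
    have h1 : ∑ k, (∑ i, l k' i * z k i) • b k = 0 := by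
      have h2 : ∑ i, l k' i • (⟨x i, hxW i⟩ : W) = 0 := by
        apply Subtype.ext
        rw [Submodule.coe_sum]
        refine Eq.trans ?_ (hx k')
        refine Finset.sum_congr rfl fun i _ => ?_
        rw [Submodule.coe_smul, Rat.smul_def]
      rw [← h2]
      simp only [Finset.sum_smul, ← hrep, Finset.smul_sum, smul_smul]
      exact Finset.sum_comm
    exact fun k => Fintype.linearIndependent_iff.1 b.linearIndependent _ h1 k
  have hx' : x = ∑ k, (b k : ℂ) • (fun i => (z k i : ℂ)) := by
    funext i
    rw [Finset.sum_apply, hrep' i]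
    refine Finset.sum_congr rfl fun k _ => ?_
    rw [Pi.smul_apply, smul_eq_mul, mul_comm]
  rw [hx']
  refine Submodule.sum_mem _ fun k _ => Submodule.smul_mem _ _ (Submodule.subset_span ?_)
  exact ⟨z k, fun k' => hz0 k' k, rfl⟩

end Pool.Agent.Y261.MT
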